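import Pool.Agent.Lib.MP_b1a3a4_al.MVS.Interfaces

/-!
# Project MVS (MP_b1a3a4_al): modules SETUPUP and PN
-/

set_option linter.all false

namespace Pool.Agent.Lib.MP_b1a3a4_al.MVS.H27

open Finsupp

theorem setupup : SetupUpStatement := by
  intro k _ n I _ _ L _ U S S' hS hle hle'
  have hpr : ∀ j, pr S' j = pr S j := by
    intro j
    refine le_antisymm ?_ (Subgroup.map_mono hle)
    rintro _ ⟨s, hs, rfl⟩
    exact (hle' hs).1 j
  have hpi : piS U S' = piS U S := by
    ext y
    constructor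
    · intro hy
      exact ⟨fun j => hpr j ▸ hy.1 j, hy.2⟩
    · intro hy
      exact ⟨fun j => (hpr j).symm ▸ hy.1 j, hy.2⟩
  refine ⟨⟨?_, ?_, ?_, ?_⟩, hpi, hpr⟩
  · intro s hs i hi
    exact (hle' hs).2 i hi
  · intro j hj
    rw [hpr j]
    exact hS.a1 j hj
  · intro J hJ hJc
    rw [hpi]
    exact ne_zero_of_dvd_ne_zero (hS.a2 J hJ hJc)
      (Subgroup.relIndex_dvd_of_le_left _ (sup_le_sup_right hle _))
  · obtain ⟨c, hc⟩ := hS.a3
    refine ⟨c, fun j hj => ?_⟩
    rw [hpr j]
    exact le_trans (hc j hj) (Subgroup.comap_mono hle)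

lemma isFP_finite (R : Type) [Ring R] (n : ℕ) (A : Type) [AddCommGroup A] [Module R A]
    (h : IsFP R n A) : Module.Finite R A := by
  cases n with
  | zero => exact h
  | succ n =>
    obtain ⟨r, f, hf, -⟩ := h
    exact Module.Finite.of_surjective f hf

lemma isFP_one (R : Type) [Ring R] (n : ℕ) (A : Type) [AddCommGroup A] [Module R A]
    (h : IsFP R (n + 1) A) : IsFP R 1 A := by
  obtain ⟨r, f, hf, hk⟩ := h
  exact ⟨r, f, hf, isFP_finite R n _ hk⟩

theorem pn (h0 : P0Statement) (hA : CaseAStatement) (hBase : BaseStatement)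
    (hStep : StepStatement) (hUp : SetupUpStatement) (hChain : ChainStatement)
    (hFG : FpfgStatement) : PNStatement := by
  intro k _ _ n
  induction n with
  | zero => exact h0 k
  | succ n ih =>
    have hCA := hA k n ih
    intro I _ _ L _ U S hS
    have hle : S ≤ piS U S := fun s hs => ⟨fun j => ⟨s, hs, rfl⟩, hS.supp s hs⟩
    refine hChain I L U S hS.supp ?_ hS.a3
      (fun S' => FPn k S' (n + 1) ∧ ConclB k (n + 1) U S') ?_ ?_
    · intro j hj
      rw [← Group.fg_iff_subgroup_fg]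
      exact hFG k _ (isFP_one _ n _ (hS.a1 j hj))
    · intro S' h1 h2 i hi t₀ ht₀ hx h3
      obtain ⟨hS', hpi, hpr⟩ := hUp k (n + 1) I L U S S' hS h1 h2
      refine hStep k (n + 1) hCA I L U S' hS' i hi t₀ ?_ ?_ h3
      · rw [hpr i]
        exact ht₀
      · rw [hpr i]
        exact hx
    · obtain ⟨hS', hpi, -⟩ := hUp k (n + 1) I L U S (piS U S) hS hle le_rfl
      exact hBase k (n + 1) hCA I L U (piS U S) hS' hpi.le

end Pool.Agent.Lib.MP_b1a3a4_al.MVS.H27
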