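import Pool.Agent.Lib.MP_b1a3a4_al.MVS.H27.TopGrp

/-!
# Project MVS (MP_b1a3a4_al): module CASEA (6.1)
-/

set_option linter.all false

namespace Pool.Agent.Lib.MP_b1a3a4_al.MVS.H27

open Finsupp

/-- every group is of type `FP_0` -/
lemma fpn_zero (k G : Type) [CommRing k] [Monoid G] : FPn k G 0 := by
  show Module.Finite (MonoidAlgebra k G) (Triv k G)
  refine ⟨⟨{(show Triv k G from (1 : k))}, ?_⟩⟩
  rw [eq_top_iff]
  intro x _
  rw [Finset.coe_singleton, Submodule.mem_span_singleton]
  refine ⟨MonoidAlgebra.single 1 (show k from x), ?_⟩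
  rw [triv_smul, aug_single]
  exact mul_one (show k from x)

lemma lcs_mono {G : Type} [Group G] {H H' : Subgroup G} (h : H ≤ H') (w : ℕ) :
    lcs H w ≤ lcs H' w := by
  induction w with
  | zero => exact h
  | succ w ih => exact Subgroup.commutator_mono ih h

variable {I : Type} {L : I → Type} [∀ i, Group (L i)]

lemma mulSingle_mem_piS [DecidableEq I] {U : Finset I} {S : Subgroup (∀ i, L i)} {j : I}
    (hj : j ∈ U) {x : L j} (hx : x ∈ pr S j) : MonoidHom.mulSingle L j x ∈ piS U S := by
  constructor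
  · intro a
    by_cases ha : a = j
    · subst ha
      simpa using hx
    · rw [MonoidHom.mulSingle_apply, Pi.mulSingle_eq_of_ne ha]
      exact one_mem _
  · intro a ha
    have : a ≠ j := fun h => ha (h ▸ hj)
    rw [MonoidHom.mulSingle_apply, Pi.mulSingle_eq_of_ne this]

theorem casea (hCP : CasePushStatement) (hFI : FpfiStatement) (hRes : FpresStatement) :
    CaseAStatement := by
  intro k _ _ n hP I _ _ L _ U S hS χ hχ hx F hF
  obtain ⟨i, hi, x, hxS, hxχ⟩ := hx
  set K : Subgroup (∀ i, L i) := S ⊓ kerJ L {i} with hK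
  have hKS : K ≤ S := inf_le_left
  have hKi : ∀ s ∈ K, s i = 1 := fun s hs => hs.2 i (Finset.mem_singleton_self i)
  have hKmem : ∀ s ∈ S, s i = 1 → s ∈ K := by
    intro s hs h1
    refine Subgroup.mem_inf.2 ⟨hs, ?_⟩
    intro a ha
    rw [Finset.mem_singleton] at ha
    subst ha
    exact h1
  have hprle : ∀ j, pr K j ≤ pr S j := fun j => Subgroup.map_mono hKS
  have hUi : ∀ {a}, a ∈ U.erase i → a ∈ U ∧ a ≠ i := fun h =>
    ⟨Finset.mem_of_mem_erase h, Finset.ne_of_mem_erase h⟩
  -- `K` satisfies the hypotheses of `P(n)`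
  have hSet : Setup k n (U.erase i) K := by
    refine ⟨?_, ?_, ?_, ?_⟩
    · intro s hs a ha
      by_cases h : a = i
      · subst h
        exact hKi s hs
      · refine hS.supp s (hKS hs) a ?_
        intro ha'
        exact ha (Finset.mem_erase.2 ⟨h, ha'⟩)
    · intro j hj
      obtain ⟨hjU, hji⟩ := hUi hj
      rcases Nat.eq_zero_or_pos n with h0 | hpos
      · subst h0
        exact fpn_zero k _
      · -- finite index
        have h2 : (S ⊔ kerJ L {i, j}).relIndex (piS U S) ≠ 0 := by
          refine hS.a2 {i, j} ?_ (le_trans Finset.card_le_two (by omega))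
          intro a ha
          rw [Finset.mem_insert, Finset.mem_singleton] at ha
          rcases ha with rfl | rfl
          · exact hi
          · exact hjU
        have h3 := Subgroup.relIndex_comap_ne_zero (MonoidHom.mulSingle L j) h2
        have h4 : pr S j ≤ (piS U S).comap (MonoidHom.mulSingle L j) :=
          fun y hy => mulSingle_mem_piS hjU hy
        have h5 : (S ⊔ kerJ L {i, j}).comap (MonoidHom.mulSingle L j) ≤ pr K j := by
          intro y hy
          rw [Subgroup.mem_comap, mem_sup_kerJ] at hy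
          obtain ⟨s, hs, h6⟩ := hy
          refine ⟨s, hKmem s hs ?_, ?_⟩
          · rw [h6 i (by simp)]
            simp [Pi.mulSingle_eq_of_ne (Ne.symm hji)]
          · show s j = y
            rw [h6 j (by simp)]
            simp
        have h7 : (pr K j).relIndex (pr S j) ≠ 0 := by
          refine ne_zero_of_dvd_ne_zero ?_ (Subgroup.relIndex_dvd_of_le_left _ h5)
          exact mt (Subgroup.relIndex_eq_zero_of_le_right h4) h3
        have h8 : FPn k (pr S j) n := by
          obtain ⟨P, hP⟩ := (hRes _ _ _).1 (hS.a1 j hjU)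
          exact (hRes _ _ _).2 ⟨P, fun q hq => hP q (by omega)⟩
        refine hFI k _ _ (Subgroup.inclusion (hprle j)) (Subgroup.inclusion_injective _) ?_ n h8
        rw [Subgroup.inclusion_range]
        exact ⟨h7⟩
    · intro J hJ hJc
      have hJU : insert i J ⊆ U := by
        intro a ha
        rcases Finset.mem_insert.1 ha with rfl | ha
        · exact hi
        · exact (hUi (hJ ha)).1
      have hiJ : i ∉ J := fun h => (hUi (hJ h)).2 rfl
      have h2 := hS.a2 (insert i J) hJU (by rw [Finset.card_insert_of_notMem hiJ]; omega)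
      have hpi : piS (U.erase i) K ≤ piS U S := by
        intro y hy
        refine ⟨fun a => hprle a (hy.1 a), fun a ha => hy.2 a ?_⟩
        intro ha'
        exact ha (hUi ha').1
      have h3 : (S ⊔ kerJ L (insert i J)).relIndex (piS (U.erase i) K) ≠ 0 :=
        mt (Subgroup.relIndex_eq_zero_of_le_right hpi) h2
      rw [← Subgroup.inf_relIndex_right] at h3
      refine ne_zero_of_dvd_ne_zero h3 (Subgroup.relIndex_dvd_of_le_left _ ?_)
      intro y hy
      obtain ⟨s, hs, h4⟩ := mem_sup_kerJ.1 hy.1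
      refine mem_sup_kerJ.2 ⟨s, hKmem s hs ?_, fun a ha => h4 a (Finset.mem_insert_of_mem ha)⟩
      rw [h4 i (Finset.mem_insert_self i J)]
      exact hy.2.2 i (by simp)
    · obtain ⟨c, hc⟩ := hS.a3
      refine ⟨c, fun j hj => ?_⟩
      obtain ⟨hjU, hji⟩ := hUi hj
      refine le_trans (lcs_mono (hprle j) c) (le_trans (hc j hjU) ?_)
      intro y hy
      refine hKmem _ hy ?_
      rw [MonoidHom.mulSingle_apply, Pi.mulSingle_eq_of_ne (Ne.symm hji)]
  obtain ⟨hKF, hKB⟩ := hP I L (U.erase i) K hSet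
  obtain ⟨FK, hFK⟩ := (hRes _ _ _).1 hKF
  set ι : K →* S := Subgroup.inclusion hKS with hι
  have hcond : CondB n (U.erase i) K (χ.res ι) := by
    intro J hJ hJc
    have hJU : insert i J ⊆ U := by
      intro a ha
      rcases Finset.mem_insert.1 ha with rfl | ha
      · exact hi
      · exact (hUi (hJ ha)).1
    have hiJ : i ∉ J := fun h => (hUi (hJ h)).2 rfl
    obtain ⟨s, hs, hsχ⟩ := hχ (insert i J) hJU (by rw [Finset.card_insert_of_notMem hiJ]; omega)
    refine ⟨⟨s.1, hKmem s.1 s.2 (hs i (Finset.mem_insert_self i J))⟩, ?_, ?_⟩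
    · intro a ha
      exact hs a (Finset.mem_insert_of_mem ha)
    · exact hsχ
  have hpush := hKB (χ.res ι) hcond FK hFK
  -- the exact sequence `1 → K → S → p_i(S) → 1`
  let π : S →* pr S i :=
    { toFun := fun s => ⟨s.1 i, ⟨s.1, s.2, rfl⟩⟩
      map_one' := rfl
      map_mul' := fun _ _ => rfl }
  have hses : SES ι π := by
    refine ⟨Subgroup.inclusion_injective _, ?_, ?_⟩
    · rintro ⟨y, s, hs, hy⟩
      exact ⟨⟨s, hs⟩, Subtype.ext hy⟩
    · intro s
      constructor
      · intro h
        exact ⟨⟨s.1, hKmem s.1 s.2 (congrArg Subtype.val h)⟩, rfl⟩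
      · rintro ⟨κ, rfl⟩
        exact Subtype.ext (hKi κ.1 κ.2)
  refine hCP k K S (pr S i) ι π hses χ n FK F hFK hF hpush ⟨_, hxS⟩ ?_ hxχ
  intro κ
  apply Subtype.ext
  show Pi.mulSingle i x * (κ : ∀ i, L i) = (κ : ∀ i, L i) * Pi.mulSingle i x
  funext a
  by_cases ha : a = i
  · subst ha
    simp [hKi κ.1 κ.2]
  · simp [Pi.mulSingle_eq_of_ne ha]

end Pool.Agent.Lib.MP_b1a3a4_al.MVS.H27
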