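import Pool.Agent.Lib.MP_b1a3a4_al.MVS.Interfaces

/-!
# Project MVS (MP_b1a3a4_al): module FPFG (`FP_1` groups are finitely generated)
-/

set_option linter.all false

namespace Pool.Agent.Lib.MP_b1a3a4_al.MVS.H27

open Finsupp

section

variable (k G : Type) [CommRing k] [Group G] (H : Subgroup G)

/-- the permutation module `k[G/H]` as an algebra homomorphism -/
noncomputable def rhoH : MonoidAlgebra k G →ₐ[k] Module.End k (MonoidAlgebra k (G ⧸ H)) :=
  Representation.asAlgebraHom (Representation.ofMulAction k G (G ⧸ H))

noncomputable def pt (g : G) : MonoidAlgebra k (G ⧸ H) :=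
  MonoidAlgebra.single (QuotientGroup.mk g) 1

lemma rhoH_single (g x : G) (c : k) :
    rhoH k G H (MonoidAlgebra.single g c) (pt k G H x) = c • pt k G H (g * x) := by
  rw [rhoH, Representation.asAlgebraHom_single, LinearMap.smul_apply, pt,
    Representation.ofMulAction_single]
  rfl

lemma pt_eq_of_mem {g : G} (hg : g ∈ H) : pt k G H g = pt k G H 1 := by
  unfold pt
  congr 1
  rw [QuotientGroup.eq]
  simpa using hg

lemma rhoH_of_supp (a : MonoidAlgebra k G) (ha : ∀ g ∈ a.coeff.support, g ∈ H) :
    rhoH k G H a (pt k G H 1) = aug k G a • pt k G H 1 := by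
  classical
  rw [← MonoidAlgebra.sum_coeff_single a, Finsupp.sum, map_sum, map_sum, LinearMap.sum_apply,
    Finset.sum_smul]
  refine Finset.sum_congr rfl fun g hg => ?_
  rw [rhoH_single, aug_single, mul_one, pt_eq_of_mem k G H (ha g hg)]

end

theorem fpfg : FpfgStatement := by
  intro k G _ _ _ h
  classical
  obtain ⟨r, f, hf, hk⟩ := h
  obtain ⟨gens, hgens⟩ : (LinearMap.ker f).FG := Module.Finite.iff_fg.1 hk
  -- an element of augmentation one
  obtain ⟨v, hv⟩ := hf (show Triv k G from (1 : k))
  -- the finitely generated subgroup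
  set T : Finset G := (insert v gens).biUnion fun w =>
    w.support.biUnion fun i => (w i).coeff.support with hT
  set H : Subgroup G := Subgroup.closure (T : Set G) with hH
  have hmem : ∀ w ∈ insert v gens, ∀ i, ∀ g ∈ (w i).coeff.support, g ∈ H := by
    intro w hw i g hg
    refine Subgroup.subset_closure ?_
    rw [Finset.mem_coe, hT, Finset.mem_biUnion]
    refine ⟨w, hw, ?_⟩
    rw [Finset.mem_biUnion]
    refine ⟨i, ?_, hg⟩
    rw [Finsupp.mem_support_iff]
    intro h0
    rw [h0] at hg
    simp at hg
  -- the map to the permutation module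
  let c : Fin r → k := fun i => (show k from f (Finsupp.single i 1))
  let φ : (Fin r →₀ MonoidAlgebra k G) → MonoidAlgebra k (G ⧸ H) := fun w =>
    ∑ i, c i • rhoH k G H (w i) (pt k G H 1)
  have hφadd : ∀ w w', φ (w + w') = φ w + φ w' := by
    intro w w'
    simp only [φ, Finsupp.add_apply, map_add, LinearMap.add_apply, smul_add,
      Finset.sum_add_distrib]
  have hφsmul : ∀ (a : MonoidAlgebra k G) w, φ (a • w) = rhoH k G H a (φ w) := by
    intro a w
    simp only [φ, Finsupp.smul_apply, smul_eq_mul, map_mul, Module.End.mul_apply, map_sum,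
      map_smul]
  have hfsum : ∀ w, (show k from f w) = ∑ i, aug k G (w i) * c i := by
    intro w
    have h1 : w = ∑ i, w i • Finsupp.single i (1 : MonoidAlgebra k G) := by
      conv_lhs => rw [← Finsupp.univ_sum_single w]
      refine Finset.sum_congr rfl fun i _ => ?_
      rw [Finsupp.smul_single, smul_eq_mul, mul_one]
    have h2 : f w = ∑ i, w i • f (Finsupp.single i (1 : MonoidAlgebra k G)) := by
      conv_lhs => rw [h1]
      rw [map_sum]
      exact Finset.sum_congr rfl fun i _ => map_smul f _ _
    exact h2
  have hφH : ∀ w, (∀ i, ∀ g ∈ (w i).coeff.support, g ∈ H) →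
      φ w = (show k from f w) • pt k G H 1 := by
    intro w hw
    rw [hfsum, Finset.sum_smul]
    refine Finset.sum_congr rfl fun i _ => ?_
    rw [rhoH_of_supp k G H _ (hw i), smul_smul, mul_comm]
  have hker : ∀ w ∈ LinearMap.ker f, φ w = 0 := by
    intro w hw
    rw [← hgens] at hw
    induction hw using Submodule.span_induction with
    | mem x hx =>
      have hx' : f x = 0 := by
        have : x ∈ LinearMap.ker f := by
          rw [← hgens]
          exact Submodule.subset_span hx
        exact this
      rw [hφH x (hmem x (Finset.mem_insert_of_mem hx))]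
      have h0 : (show k from f x) = 0 := hx'
      rw [h0, zero_smul]
    | zero => simp [φ]
    | add x y _ _ hx hy => rw [hφadd, hx, hy, add_zero]
    | smul a x _ hx => rw [hφsmul, hx, map_zero]
  have hφv : φ v = pt k G H 1 := by
    rw [hφH v (hmem v (Finset.mem_insert_self _ _))]
    have : (show k from f v) = 1 := hv
    rw [this, one_smul]
  -- every element is in `H`
  have hall : ∀ g : G, g ∈ H := by
    intro g
    have h1 : MonoidAlgebra.single g (1 : k) • v + (-v) ∈ LinearMap.ker f := by
      rw [LinearMap.mem_ker, map_add, map_neg, map_smul, hv]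
      show (show k from (aug k G (MonoidAlgebra.single g (1 : k)) * (1 : k))) + -(1 : k) = 0
      rw [aug_single, mul_one, add_neg_cancel]
    have h2 := hker _ h1
    have hneg : φ (-v) = -φ v := by
      have := hφadd v (-v)
      rw [add_neg_cancel] at this
      have h0 : φ 0 = 0 := by simp [φ]
      rw [h0] at this
      exact (neg_eq_of_add_eq_zero_right this.symm).symm
    rw [hφadd, hφsmul, hneg, hφv, rhoH_single, one_smul, mul_one, ← sub_eq_add_neg,
      sub_eq_zero] at h2
    unfold pt at h2
    rw [MonoidAlgebra.single_left_inj one_ne_zero, QuotientGroup.eq] at h2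
    simpa using h2
  rw [Group.fg_def]
  refine ⟨T, ?_⟩
  rw [eq_top_iff]
  intro g _
  exact hall g

end Pool.Agent.Lib.MP_b1a3a4_al.MVS.H27
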