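import Pool.Agent.Lib.MP_b1a3a4_al.MVS.H27.CaseA

/-!
# Project MVS (MP_b1a3a4_al): modules TOP1 and TOP2 (sections 7 and 8)
-/

set_option linter.all false

namespace Pool.Agent.Lib.MP_b1a3a4_al.MVS.H27

open Finsupp

/-- `(0.1)`: a character as in the problem does not vanish on `K_J(S)`. -/
lemma charCond_ne {I : Type} {L : I → Type} [∀ i, Group (L i)] {S : Subgroup (∀ i, L i)} {n : ℕ}
    {χ : Chr S} (hχ : χ ≠ 0) (hc : CharCond n L S χ) (J : Finset I) (hJ : J.card = n) :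
    ∃ s : S, (∀ j ∈ J, (s : ∀ i, L i) j = 1) ∧ val χ s ≠ 0 := by
  obtain ⟨s, hs⟩ : ∃ s : S, val χ s < 0 := by
    by_contra hcon
    push Not at hcon
    apply hχ
    ext x
    have h1 := hcon x
    have h2 := hcon x⁻¹
    rw [val_inv] at h2
    have h3 : val χ x = 0 := by linarith
    exact h3
  obtain ⟨s', h1, h2⟩ := hc J hJ s
  refine ⟨s' * s⁻¹, ?_, ?_⟩
  · intro j hj
    show (s' : ∀ i, L i) j * ((s : ∀ i, L i) j)⁻¹ = 1
    rw [h2 j hj, mul_inv_cancel]
  · rw [val_mul, val_inv]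
    intro h
    linarith

/-- the exact sequence of a normal subgroup of finite index -/
lemma ses_of_normal {G : Type} [Group G] {S' S : Subgroup G} (h : S' ≤ S)
    (hn : ∀ s ∈ S, ∀ t ∈ S', s * t * s⁻¹ ∈ S') (hr : S'.relIndex S ≠ 0) :
    ∃ (Q : Type) (_ : Group Q) (π : S →* Q), Finite Q ∧ SES (Subgroup.inclusion h) π := by
  have hN : (S'.subgroupOf S).Normal := by
    constructor
    intro t ht s
    rw [Subgroup.mem_subgroupOf] at ht ⊢
    exact hn s.1 s.2 t.1 ht
  refine ⟨S ⧸ S'.subgroupOf S, inferInstance, QuotientGroup.mk' _, ?_, ?_⟩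
  · have : (S'.subgroupOf S).FiniteIndex := ⟨hr⟩
    infer_instance
  · refine ⟨Subgroup.inclusion_injective _, QuotientGroup.mk'_surjective _, ?_⟩
    intro s
    rw [← MonoidHom.mem_ker, QuotientGroup.ker_mk', Subgroup.mem_subgroupOf]
    constructor
    · intro hs
      exact ⟨⟨s.1, hs⟩, rfl⟩
    · rintro ⟨κ, rfl⟩
      exact κ.2

lemma pow_mem_of_ses {K S Q : Type} [Group K] [Group S] [Group Q] [Finite Q] {j : K →* S}
    {π : S →* Q} (h : SES j π) (s : S) : ∃ m : ℕ, 0 < m ∧ ∃ κ, j κ = s ^ m := by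
  refine ⟨Nat.card Q, Nat.card_pos, (h.ex _).1 ?_⟩
  rw [map_pow]
  exact pow_card_eq_one'

/-- the last part of the proof of both forms -/
lemma monoid_part (hPN : PNStatement) (hRes : FpresStatement) (hUp : UpStatement)
    (hM : MonoidStatement) (k : Type) [CommRing k] [Nontrivial k] (n : ℕ) (I : Type) [Fintype I]
    [DecidableEq I] (L : I → Type) [∀ i, Group (L i)] (S S' : Subgroup (∀ i, L i))
    (hn : n ≤ Fintype.card I) (hle : S' ≤ S)
    (hconj : ∀ s ∈ S, ∀ t ∈ S', s * t * s⁻¹ ∈ S') (hrel : S'.relIndex S ≠ 0)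
    (hset : Setup k n Finset.univ S') (hFP : FPn k S n) (χ : Chr S) (hχ : χ ≠ 0)
    (hc : CharCond n L S χ) : FPn k (posMon χ) n := by
  obtain ⟨hF', hB⟩ := hPN k n I L Finset.univ S' hset
  obtain ⟨P', hP'⟩ := (hRes _ _ _).1 hF'
  obtain ⟨P, hP⟩ := (hRes _ _ _).1 hFP
  obtain ⟨Q, _, π, hQ, hses⟩ := ses_of_normal hle hconj hrel
  have hcond : CondB n Finset.univ S' (χ.res (Subgroup.inclusion hle)) := by
    intro J _ hJ
    obtain ⟨J', hJJ', hJ'⟩ := Finset.exists_superset_card_eq hJ (by simpa using hn)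
    obtain ⟨s, hs, hsχ⟩ := charCond_ne hχ hc J' hJ'
    obtain ⟨m, hm, κ, hκ⟩ := pow_mem_of_ses hses s
    refine ⟨κ, ?_, ?_⟩
    · intro j hj
      have h1 : (κ : ∀ i, L i) = (s : ∀ i, L i) ^ m := congrArg Subtype.val hκ
      rw [h1, Pi.pow_apply, hs j (hJJ' hj), one_pow]
    · rw [val_res, hκ, val_pow]
      have : (m : ℝ) ≠ 0 := by positivity
      exact mul_ne_zero this hsχ
  have hpush := hUp k S' S Q (Subgroup.inclusion hle) π hses χ n P' P hP' hP
    (hB _ hcond P' hP')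
  exact hM k S χ hχ n P hP hpush

theorem top1 (hPN : PNStatement) (hGrp : TopGrpStatement) (hTop : TopFpStatement)
    (hFI : FpfiStatement) (hRes : FpresStatement) (hUp : UpStatement) (hM : MonoidStatement) :
    Top1Statement := by
  intro k _ _ n hn I _ _ L _ S hnI hFP hS χ hχ hc
  obtain ⟨S', hle, hconj, hrel, hfin, ha2, c, ha3⟩ := hGrp I L S n hn hnI hS
  have hF' : FPn k S' n := by
    refine hFI k _ _ (Subgroup.inclusion hle) (Subgroup.inclusion_injective _) ?_ n hFP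
    rw [Subgroup.inclusion_range]
    exact ⟨hrel⟩
  have hset : Setup k n Finset.univ S' :=
    ⟨fun s _ i hi => absurd (Finset.mem_univ i) hi,
      fun j _ => hTop k n (by omega) I L S' hF' ⟨c, ha3⟩ j,
      fun J _ hJ => ha2 J hJ, ⟨c, fun j _ => ha3 j⟩⟩
  exact monoid_part hPN hRes hUp hM k n I L S S' hnI hle hconj hrel hset hFP χ hχ hc

theorem top2 (hPN : PNStatement) (hGrp : TopGrpStatement) (hFI : FpfiStatement)
    (hFG : FpgrpStatement) (hFF : FpfinStatement) (hRes : FpresStatement) (hUp : UpStatement)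
    (hM : MonoidStatement) : Top2Statement := by
  intro k _ _ n hn I _ _ L _ S hnI hL hS
  obtain ⟨S', hle, hconj, hrel, hfin, ha2, c, ha3⟩ := hGrp I L S n hn hnI hS
  have hset : Setup k n Finset.univ S' := by
    refine ⟨fun s _ i hi => absurd (Finset.mem_univ i) hi, ?_,
      fun J _ hJ => ha2 J hJ, ⟨c, fun j _ => ha3 j⟩⟩
    intro j _
    refine hFI k _ _ (pr S' j).subtype (Subgroup.subtype_injective _) ?_ n (hL j)
    rw [Subgroup.range_subtype]
    exact hfin j
  obtain ⟨hF', -⟩ := hPN k n I L Finset.univ S' hset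
  obtain ⟨Q, _, π, hQ, hses⟩ := ses_of_normal hle hconj hrel
  have hFP : FPn k S n :=
    hFG k S' S Q (Subgroup.inclusion hle) π hses n hF' ((hFF k n).1 Q hQ)
  exact ⟨hFP, fun χ hχ hc =>
    monoid_part hPN hRes hUp hM k n I L S S' hnI hle hconj hrel hset hFP χ hχ hc⟩

end Pool.Agent.Lib.MP_b1a3a4_al.MVS.H27
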