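import Pool.Agent.Lib.MP_b1a3a4_al.MVS.Interfaces

/-!
# Project MVS (MP_b1a3a4_al): module TOPGRP (group theory of section 7)
-/

set_option linter.all false

namespace Pool.Agent.Lib.MP_b1a3a4_al.MVS.H27

open Finsupp

variable {I : Type} {L : I → Type} [∀ i, Group (L i)]

lemma ker_projJ (J : Finset I) : (projJ L J).ker = kerJ L J := by
  ext x
  constructor
  · intro h j hj
    exact congrFun (MonoidHom.mem_ker.1 h) ⟨j, hj⟩
  · intro h
    rw [MonoidHom.mem_ker]
    funext j
    exact h j.1 j.2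

lemma ker_eval (j : I) : (Pi.evalMonoidHom L j).ker = kerJ L {j} := by
  ext x
  rw [MonoidHom.mem_ker]
  constructor
  · intro h i hi
    rw [Finset.mem_singleton] at hi
    subst hi
    exact h
  · intro h
    exact h j (Finset.mem_singleton_self j)

lemma kerJ_mono {J J' : Finset I} (h : J ⊆ J') : kerJ L J' ≤ kerJ L J :=
  fun _ hx j hj => hx j (h hj)

lemma mem_sup_kerJ {S : Subgroup (∀ i, L i)} {J : Finset I} {x : ∀ i, L i} :
    x ∈ S ⊔ kerJ L J ↔ ∃ s ∈ S, ∀ j ∈ J, s j = x j := by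
  rw [← ker_projJ, ← Subgroup.comap_map_eq, Subgroup.mem_comap, Subgroup.mem_map]
  constructor
  · rintro ⟨s, hs, h⟩
    exact ⟨s, hs, fun j hj => congrFun h ⟨j, hj⟩⟩
  · rintro ⟨s, hs, h⟩
    exact ⟨s, hs, funext fun j => h j.1 j.2⟩

lemma relIndex_ne_of_fin {G : Type} [Group G] {H : Subgroup G} (h : H.FiniteIndex)
    (K : Subgroup G) : H.relIndex K ≠ 0 := by
  have := h
  exact (Subgroup.isFiniteRelIndex_of_finiteIndex (H := H) (K := K)).relIndex_ne_zero

lemma comap_fin {G G' : Type} [Group G] [Group G'] (f : G' →* G) {H : Subgroup G}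
    (h : H.FiniteIndex) : (H.comap f).FiniteIndex := by
  constructor
  rw [Subgroup.index_comap]
  exact relIndex_ne_of_fin h _

lemma map_fin {G G' : Type} [Group G] [Group G'] (f : G →* G') {S' S : Subgroup G}
    (h : S'.relIndex S ≠ 0) (hle : S' ≤ S) (hS : (S.map f).FiniteIndex) :
    (S'.map f).FiniteIndex := by
  constructor
  rw [← Subgroup.relIndex_mul_index (Subgroup.map_mono hle : S'.map f ≤ S.map f)]
  refine mul_ne_zero ?_ hS.index_ne_zero
  rw [← Subgroup.relIndex_comap, Subgroup.comap_map_eq]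
  exact ne_zero_of_dvd_ne_zero h (Subgroup.relIndex_dvd_of_le_left _ le_sup_left)

/-- `B_W = p_j(K_W(S))` -/
def bW (S : Subgroup (∀ i, L i)) (W : Finset I) (j : I) : Subgroup (L j) :=
  (S ⊓ kerJ L W).map (Pi.evalMonoidHom L j)

lemma mem_bW {S : Subgroup (∀ i, L i)} {W : Finset I} {j : I} {x : L j} :
    x ∈ bW S W j ↔ ∃ s ∈ S, (∀ i ∈ W, s i = 1) ∧ s j = x := by
  rw [bW, Subgroup.mem_map]
  constructor
  · rintro ⟨s, ⟨hs, hk⟩, h⟩
    exact ⟨s, hs, hk, h⟩
  · rintro ⟨s, hs, hk, h⟩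
    exact ⟨s, ⟨hs, hk⟩, h⟩

lemma bW_comm [DecidableEq I] (S : Subgroup (∀ i, L i)) (W : Finset I) (i j : I) :
    ⁅bW S W j, bW S {i} j⁆ ≤ bW S (insert i W) j := by
  rw [Subgroup.commutator_le]
  intro x hx y hy
  obtain ⟨s, hs, hk, rfl⟩ := mem_bW.1 hx
  obtain ⟨t, ht, hl, rfl⟩ := mem_bW.1 hy
  refine mem_bW.2 ⟨s * t * s⁻¹ * t⁻¹, ?_, ?_, rfl⟩
  · exact S.mul_mem (S.mul_mem (S.mul_mem hs ht) (S.inv_mem hs)) (S.inv_mem ht)
  · intro a ha
    rw [Finset.mem_insert] at ha
    simp only [Pi.mul_apply, Pi.inv_apply]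
    rcases ha with rfl | ha
    · rw [hl a (Finset.mem_singleton_self a)]
      simp
    · rw [hk a ha]
      simp

lemma bW_fin [DecidableEq I] {S : Subgroup (∀ i, L i)} {i j : I}
    (h : (S ⊔ kerJ L {i, j}).FiniteIndex) (hij : i ≠ j) : (bW S {i} j).FiniteIndex := by
  have h1 : ((S ⊔ kerJ L {i, j}).comap (MonoidHom.mulSingle L j)).FiniteIndex := comap_fin _ h
  refine Subgroup.finiteIndex_of_le (H := (S ⊔ kerJ L {i, j}).comap (MonoidHom.mulSingle L j)) ?_
  intro x hx
  rw [Subgroup.mem_comap, mem_sup_kerJ] at hx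
  obtain ⟨s, hs, h2⟩ := hx
  refine mem_bW.2 ⟨s, hs, ?_, ?_⟩
  · intro a ha
    rw [Finset.mem_singleton] at ha
    subst ha
    rw [h2 a (by simp)]
    simp [Pi.mulSingle_eq_of_ne hij]
  · rw [h2 j (by simp)]
    simp

theorem topgrp : TopGrpStatement := by
  intro I _ _ L _ S n hn hnI hS
  -- `S · ker p_J` has finite index for `|J| ≤ n`
  have F1 : ∀ J : Finset I, J.card ≤ n → (S ⊔ kerJ L J).FiniteIndex := by
    intro J hJ
    obtain ⟨J', hJJ', hJ'⟩ := Finset.exists_superset_card_eq hJ (by simpa using hnI)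
    have h1 := hS J' hJ'
    have h2 : (S ⊔ kerJ L J').FiniteIndex := by
      rw [← ker_projJ, ← Subgroup.comap_map_eq]
      exact comap_fin _ h1
    exact Subgroup.finiteIndex_of_le (H := S ⊔ kerJ L J')
      (sup_le_sup_left (kerJ_mono hJJ') S)
  have F2 : ∀ j, (S.map (Pi.evalMonoidHom L j)).FiniteIndex := by
    intro j
    constructor
    rw [Subgroup.index_map, ker_eval]
    refine mul_ne_zero (F1 {j} (by simp; omega)).index_ne_zero ?_
    rw [MonoidHom.range_eq_top_of_surjective]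
    · simp
    · exact Function.surjective_eval j
  -- the groups `A_j`
  set A : ∀ j, Subgroup (L j) := fun j => ⨅ i ∈ (Finset.univ.erase j : Finset I), bW S {i} j
    with hA
  have hAfin : ∀ j, (A j).FiniteIndex := by
    intro j
    refine Subgroup.finiteIndex_iInf' _ ?_
    intro i hi
    exact bW_fin (F1 {i, j} (le_trans Finset.card_le_two hn)) (Finset.ne_of_mem_erase hi)
  have hAmem : ∀ j x, x ∈ A j → ∀ i, i ≠ j → x ∈ bW S {i} j := by
    intro j x hx i hij
    have := hx
    simp only [hA, Subgroup.mem_iInf] at this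
    exact this i (Finset.mem_erase.2 ⟨hij, Finset.mem_univ i⟩)
  have hAconj : ∀ s ∈ S, ∀ j, ∀ x ∈ A j, s j * x * (s j)⁻¹ ∈ A j := by
    intro s hs j x hx
    simp only [hA, Subgroup.mem_iInf]
    intro i hi
    obtain ⟨t, ht, hk, rfl⟩ := mem_bW.1 (hAmem j x hx i (Finset.ne_of_mem_erase hi))
    refine mem_bW.2 ⟨s * t * s⁻¹, S.mul_mem (S.mul_mem hs ht) (S.inv_mem hs), ?_, rfl⟩
    intro a ha
    simp [hk a ha]
  set T : Subgroup (∀ i, L i) := ⨅ j, (A j).comap (Pi.evalMonoidHom L j) with hT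
  have hTmem : ∀ x, x ∈ T ↔ ∀ j, x j ∈ A j := by
    intro x
    simp only [hT, Subgroup.mem_iInf, Subgroup.mem_comap]
    rfl
  have hTfin : T.FiniteIndex := by
    refine Subgroup.finiteIndex_iInf ?_
    intro j
    exact comap_fin _ (hAfin j)
  have hrel : (S ⊓ T).relIndex S ≠ 0 := by
    rw [Subgroup.inf_relIndex_left]
    exact relIndex_ne_of_fin hTfin S
  refine ⟨S ⊓ T, inf_le_left, ?_, hrel, ?_, ?_, Fintype.card I - 1, ?_⟩
  · intro s hs t ht
    refine Subgroup.mem_inf.2 ⟨S.mul_mem (S.mul_mem hs ht.1) (S.inv_mem hs), ?_⟩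
    rw [hTmem]
    intro j
    exact hAconj s hs j _ ((hTmem t).1 ht.2 j)
  · intro j
    exact map_fin _ hrel inf_le_left (F2 j)
  · intro J hJ
    apply relIndex_ne_of_fin
    rw [← ker_projJ, ← Subgroup.comap_map_eq]
    apply comap_fin
    apply map_fin _ hrel inf_le_left
    constructor
    rw [Subgroup.index_map, ker_projJ]
    refine mul_ne_zero (F1 J hJ).index_ne_zero ?_
    rw [MonoidHom.range_eq_top_of_surjective]
    · simp
    · intro y
      refine ⟨fun i => if h : i ∈ J then y ⟨i, h⟩ else 1, ?_⟩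
      funext j
      simp [projJ]
  · intro j
    have hprA : pr (S ⊓ T) j ≤ A j := by
      rintro _ ⟨s, hs, rfl⟩
      exact (hTmem s).1 hs.2 j
    have key : ∀ W : Finset I, j ∉ W → lcs (pr (S ⊓ T) j) W.card ≤ bW S W j := by
      intro W
      induction W using Finset.induction_on with
      | empty =>
        intro _
        rintro _ ⟨s, hs, rfl⟩
        exact mem_bW.2 ⟨s, hs.1, by simp, rfl⟩
      | insert i W hi ih =>
        intro hj
        rw [Finset.mem_insert, not_or] at hj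
        rw [Finset.card_insert_of_notMem hi]
        refine le_trans (Subgroup.commutator_mono (ih hj.2) ?_) (bW_comm S W i j)
        intro x hx
        exact hAmem j x (hprA hx) i (Ne.symm hj.1)
    have hself : ∀ w, lcs (pr (S ⊓ T) j) w ≤ pr (S ⊓ T) j := by
      intro w
      induction w with
      | zero => exact le_rfl
      | succ w ih =>
        refine le_trans (Subgroup.commutator_mono ih le_rfl) ?_
        exact Subgroup.commutator_le_self _
    intro x hx
    have h1 := key (Finset.univ.erase j) (by simp)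
    rw [Finset.card_erase_of_mem (Finset.mem_univ j), Finset.card_univ] at h1
    obtain ⟨s, hs, hk, hsx⟩ := mem_bW.1 (h1 hx)
    have hxA : x ∈ A j := hprA (hself _ hx)
    show MonoidHom.mulSingle L j x ∈ S ⊓ T
    have hs' : s = MonoidHom.mulSingle L j x := by
      funext i
      by_cases hij : i = j
      · subst hij
        rw [hsx]
        simp
      · rw [hk i (by simp [hij])]
        simp [Pi.mulSingle_eq_of_ne hij]
    refine Subgroup.mem_inf.2 ⟨hs' ▸ hs, ?_⟩
    rw [hTmem]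
    intro i
    by_cases hij : i = j
    · subst hij
      simpa using hxA
    · simp only [MonoidHom.mulSingle_apply, Pi.mulSingle_eq_of_ne hij]
      exact (A i).one_mem

end Pool.Agent.Lib.MP_b1a3a4_al.MVS.H27
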